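import Mathlib

/-!
# MP_51b9a2_al: divisible groups as Ext groups, the general lemma
-/

set_option autoImplicit false

namespace Pool.Agent.H919.EX

/-- The group `G` is isomorphic to `Ext(A,B)` for some abelian groups `A`, `B`: the group `A` is given by a
free presentation `A = F/R`, with `F` the free abelian group on a set `ι`, and `Ext(A,B)` is the group
`Hom(R,B)` modulo the restrictions of the homomorphisms `F ⟶ B`. -/
def IsExt (G : Type) [AddCommGroup G] : Prop :=
  ∃ (ι : Type) (B : Type) (_ : AddCommGroup B) (R : AddSubgroup (ι →₀ ℤ)),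
    Nonempty (G ≃+ ((↥R →+ B) ⧸ (AddMonoidHom.compHom' (P := B) R.subtype).range))

/-- The relation `ℓ e_ℓ - e₀`. -/
noncomputable def rel (l : Nat.Primes) : Option Nat.Primes →₀ ℤ :=
  Finsupp.single (some l) (l : ℤ) - Finsupp.single none 1

/-- The homomorphism which sends a generator to the relation. -/
noncomputable def relHom : (Nat.Primes →₀ ℤ) →+ (Option Nat.Primes →₀ ℤ) :=
  Finsupp.liftAddHom fun l => (zmultiplesHom _ (rel l))

theorem relHom_single (l : Nat.Primes) (n : ℤ) : relHom (Finsupp.single l n) = n • rel l := by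
  simp [relHom]

theorem rel_mem (l : Nat.Primes) : rel l ∈ relHom.range :=
  ⟨Finsupp.single l 1, by rw [relHom_single, one_smul]⟩

/-- The relation as an element of the group of relations. -/
noncomputable def rr (l : Nat.Primes) : ↥(relHom.range) := ⟨rel l, rel_mem l⟩

theorem hom_ext_range {B : Type} [AddCommGroup B] {f g : ↥(relHom.range) →+ B}
    (h : ∀ l, f (rr l) = g (rr l)) : f = g := by
  have h1 : f.comp relHom.rangeRestrict = g.comp relHom.rangeRestrict := by
    refine Finsupp.addHom_ext fun l n => ?_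
    have h2 : relHom.rangeRestrict (Finsupp.single l n) = n • rr l := by
      apply Subtype.ext
      show relHom (Finsupp.single l n) = n • rel l
      exact relHom_single l n
    rw [AddMonoidHom.comp_apply, AddMonoidHom.comp_apply, h2, map_zsmul, map_zsmul, h l]
  exact (AddMonoidHom.cancel_right relHom.rangeRestrict_surjective).1 h1

/-- A homomorphism from the free group given by the images of the generators. -/
noncomputable def ofGen {B : Type} [AddCommGroup B] (b0 : B) (b : Nat.Primes → B) :
    (Option Nat.Primes →₀ ℤ) →+ B :=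
  Finsupp.liftAddHom fun o => zmultiplesHom _ (o.elim b0 b)

theorem ofGen_rel {B : Type} [AddCommGroup B] (b0 : B) (b : Nat.Primes → B) (l : Nat.Primes) :
    ofGen b0 b (rel l) = (l : ℤ) • b l - b0 := by
  have h1 : ∀ (o : Option Nat.Primes) (n : ℤ), ofGen b0 b (Finsupp.single o n) =
      n • (o.elim b0 b) := fun o n => by
    rw [ofGen, Finsupp.liftAddHom_apply_single, zmultiplesHom_apply]
  rw [rel, map_sub, h1, h1, one_smul]
  rfl

section

variable {V : Type} [AddCommGroup V] {H : Nat.Primes → Type} [∀ l, AddCommGroup (H l)]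
  (π : (∀ l, H l) →+ V)

/-- The diagonal of the values of a homomorphism at the relations. -/
noncomputable def diag : (↥(relHom.range) →+ ↥π.ker) →+ (∀ l, H l) where
  toFun φ := fun l => (φ (rr l)).1 l
  map_zero' := rfl
  map_add' _ _ := rfl

theorem bezout (l q : Nat.Primes) (h : q ≠ l) : ∃ u k : ℤ, (l : ℤ) * u = 1 + (q : ℤ) * k := by
  have h1 : IsCoprime (l : ℤ) (q : ℤ) := by
    rw [Nat.isCoprime_iff_coprime]
    exact (Nat.coprime_primes l.2 q.2).2 fun h' => h (Subtype.ext h'.symm)
  obtain ⟨a, b, hab⟩ := h1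
  exact ⟨a, -b, by linear_combination hab⟩

theorem divide (hH : ∀ l (x : H l), ((l : ℕ) : ℤ) • x = 0) (l : Nat.Primes) (z : ∀ l, H l)
    (hz : z l = 0) : ∃ x : ∀ l, H l, ((l : ℕ) : ℤ) • x = z := by
  choose! u k huk using fun q => bezout l q
  refine ⟨fun q => u q • z q, funext fun q => ?_⟩
  show ((l : ℕ) : ℤ) • u q • z q = z q
  by_cases hq : q = l
  · subst hq
    rw [hz, smul_zero, smul_zero]
  · rw [smul_smul, huk q hq, add_smul, one_smul, mul_comm, mul_smul, hH, smul_zero, add_zero]

theorem isExt_of (hH : ∀ l (x : H l), ((l : ℕ) : ℤ) • x = 0) (hs : Function.Surjective π)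
    (h2 : ∀ (l : Nat.Primes) (v : V), ((l : ℕ) : ℤ) • v = 0 → ∃ y : H l, π (Pi.single l y) = v)
    (hd : ∀ (l : Nat.Primes) (v : V), ∃ w : V, ((l : ℕ) : ℤ) • w = v) : IsExt V := by
  have hker : (π.comp (diag π)).ker =
      (AddMonoidHom.compHom' (P := ↥π.ker) (relHom.range).subtype).range := by
    ext φ
    constructor
    · intro hφ
      have h0 : π (-(diag π φ)) = 0 := by
        rw [map_neg, neg_eq_zero]
        exact hφ
      have hx : ∀ l : Nat.Primes, ∃ x : ∀ l, H l, π x = 0 ∧
          ((l : ℕ) : ℤ) • x = (φ (rr l)).1 + -(diag π φ) := by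
        intro l
        obtain ⟨x0, hx0⟩ := divide hH l ((φ (rr l)).1 + -(diag π φ))
          (add_neg_cancel _)
        have hv : ((l : ℕ) : ℤ) • (-(π x0)) = 0 := by
          rw [smul_neg, ← map_zsmul, hx0, map_add, h0, add_zero]
          have := (φ (rr l)).2
          rw [AddMonoidHom.mem_ker] at this
          rw [this, neg_zero]
        obtain ⟨y, hy⟩ := h2 l _ hv
        refine ⟨x0 + Pi.single l y, by rw [map_add, hy, add_neg_cancel], ?_⟩
        rw [smul_add, hx0, ← Pi.single_smul, hH, Pi.single_zero, add_zero]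
      choose x hx1 hx2 using hx
      refine ⟨ofGen ⟨-(diag π φ), h0⟩ fun l => ⟨x l, hx1 l⟩, ?_⟩
      refine hom_ext_range fun l => ?_
      show ofGen _ _ (rel l) = _
      rw [ofGen_rel]
      apply Subtype.ext
      show ((l : ℕ) : ℤ) • x l - -(diag π φ) = (φ (rr l)).1
      rw [hx2, add_sub_cancel_right]
    · rintro ⟨Φ, rfl⟩
      rw [AddMonoidHom.mem_ker, AddMonoidHom.comp_apply]
      have h3 : diag π (AddMonoidHom.compHom' (relHom.range).subtype Φ) =
          -(Φ (Finsupp.single none 1)).1 := by
        funext l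
        show (Φ (rel l)).1 l = -((Φ (Finsupp.single none 1)).1 l)
        have h4 : rel l = ((l : ℕ) : ℤ) • Finsupp.single (some l) 1 - Finsupp.single none 1 := by
          simp [rel]
        rw [h4, map_sub, map_zsmul]
        show ((l : ℕ) : ℤ) • (Φ (Finsupp.single (some l) 1)).1 l -
          (Φ (Finsupp.single none 1)).1 l = _
        rw [hH, zero_sub]
      rw [h3, map_neg, neg_eq_zero]
      exact (Φ (Finsupp.single none 1)).2
  have hsurj : Function.Surjective (π.comp (diag π)) := by
    intro v
    obtain ⟨h, hh⟩ := hs (-v)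
    choose w hw using fun l => hd l (-v)
    choose t ht using fun l => hs (w l)
    have h5 : ∀ ρ : ↥(relHom.range), π (ofGen h t ρ.1) = 0 := by
      have h6 : (π.comp (ofGen h t)).comp (relHom.range).subtype = 0 := by
        refine hom_ext_range fun l => ?_
        show π (ofGen h t (rel l)) = 0
        rw [ofGen_rel, map_sub, map_zsmul, ht, hw, hh, sub_self]
      intro ρ
      exact DFunLike.congr_fun h6 ρ
    refine ⟨((ofGen h t).comp (relHom.range).subtype).codRestrict π.ker h5, ?_⟩
    show π (diag π _) = v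
    have h7 : diag π (((ofGen h t).comp (relHom.range).subtype).codRestrict π.ker h5) = -h := by
      funext l
      show (ofGen h t (rel l)) l = -(h l)
      rw [ofGen_rel]
      show ((l : ℕ) : ℤ) • t l l - h l = _
      rw [hH, zero_sub]
    rw [h7, map_neg, hh, neg_neg]
  refine ⟨Option Nat.Primes, ↥π.ker, inferInstance, relHom.range, ⟨?_⟩⟩
  exact ((QuotientAddGroup.quotientKerEquivOfSurjective _ hsurj).symm).trans
    (QuotientAddGroup.quotientAddEquivOfEq hker)

end

end Pool.Agent.H919.EX
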