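import Mathlib
import Pool.Agent.H919.EX.Gen

/-!
# MP_51b9a2_al: each divisible group is an Ext group
-/

set_option autoImplicit false

namespace Pool.Agent.H919.EX

variable (V : Type) [AddCommGroup V]

/-- The elements killed by `l`. -/
def tor (l : Nat.Primes) : AddSubgroup V where
  carrier := {v | ((l : ℕ) : ℤ) • v = 0}
  zero_mem' := smul_zero _
  add_mem' {a b} ha hb := by
    show ((l : ℕ) : ℤ) • (a + b) = 0
    rw [smul_add, show ((l : ℕ) : ℤ) • a = 0 from ha, show ((l : ℕ) : ℤ) • b = 0 from hb, add_zero]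
  neg_mem' {a} ha := by
    show ((l : ℕ) : ℤ) • (-a) = 0
    rw [smul_neg, show ((l : ℕ) : ℤ) • a = 0 from ha, neg_zero]

/-- The factors of the big product. -/
abbrev Hf (l : Nat.Primes) : Type := ↥(tor V l) × (V →₀ ZMod l)

theorem hf_killed (l : Nat.Primes) (x : Hf V l) : ((l : ℕ) : ℤ) • x = 0 := by
  refine Prod.ext (Subtype.ext x.1.2) (Finsupp.ext fun v => ?_)
  show ((l : ℕ) : ℤ) • (x.2 v) = 0
  rw [zsmul_eq_mul, Int.cast_natCast, ZMod.natCast_self, zero_mul]

/-- Reduction modulo a prime of the finitely supported functions. -/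
noncomputable def redl (l : Nat.Primes) : (V →₀ ℤ) →+ (V →₀ ZMod l) :=
  Finsupp.mapRange.addMonoidHom (Int.castAddHom (ZMod l))

/-- The embedding of the direct sum of the torsion groups and the free group on `V`. -/
noncomputable def jj : ((Π₀ l, ↥(tor V l)) × (V →₀ ℤ)) →+ (∀ l, Hf V l) where
  toFun x := fun l => (x.1 l, redl V l x.2)
  map_zero' := by
    funext l
    exact Prod.ext rfl (map_zero (redl V l))
  map_add' x y := by
    funext l
    exact Prod.ext rfl (map_add (redl V l) _ _)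

theorem jj_inj : Function.Injective (jj V) := by
  rw [injective_iff_map_eq_zero]
  rintro ⟨a, n⟩ h
  refine Prod.ext (DFinsupp.ext fun l => ?_) (Finsupp.ext fun v => ?_)
  · exact congrArg Prod.fst (congrFun h l)
  · show n v = 0
    by_contra hn
    obtain ⟨q, hq1, hq2⟩ := Nat.exists_infinite_primes ((n v).natAbs + 1)
    have h1 : redl V ⟨q, hq2⟩ n = 0 := congrArg Prod.snd (congrFun h ⟨q, hq2⟩)
    have h2 : ((n v : ℤ) : ZMod q) = 0 := DFunLike.congr_fun h1 v
    rw [ZMod.intCast_zmod_eq_zero_iff_dvd] at h2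
    have h3 := Int.natAbs_dvd_natAbs.2 h2
    rw [Int.natAbs_natCast] at h3
    have h4 := Nat.le_of_dvd (Int.natAbs_pos.2 hn) h3
    omega

/-- The homomorphism to be extended. -/
noncomputable def gg : ((Π₀ l, ↥(tor V l)) × (V →₀ ℤ)) →+ V :=
  AddMonoidHom.coprod (DFinsupp.liftAddHom fun l => (tor V l).subtype)
    (Finsupp.liftAddHom fun v => zmultiplesHom V v)

/-- **Each divisible group is an Ext group.** -/
theorem isExt_of_divisible (hd : ∀ (n : ℤ), n ≠ 0 → ∀ v : V, ∃ w : V, n • w = v) : IsExt V := by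
  classical
  choose! f hf using hd
  let _ : DivisibleBy V ℤ :=
    { div := fun v n => if n = 0 then 0 else f n v
      div_zero := fun v => by simp
      div_cancel := fun {n} v hn => by simp [hn, hf n hn v] }
  obtain ⟨π, hπ⟩ := (Module.Baer.of_divisible V).extension_property_addMonoidHom (jj V) (jj_inj V)
    (gg V)
  have hπ' : ∀ x, π (jj V x) = gg V x := fun x => DFunLike.congr_fun hπ x
  refine isExt_of (H := Hf V) π (hf_killed V) (fun v => ?_) (fun l v hv => ?_) (fun l v => ?_)
  · refine ⟨jj V (0, Finsupp.single v 1), ?_⟩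
    rw [hπ', gg, AddMonoidHom.coprod_apply, map_zero, zero_add, Finsupp.liftAddHom_apply_single]
    simp
  · refine ⟨(⟨v, hv⟩, 0), ?_⟩
    have h1 : (Pi.single l (⟨v, hv⟩, 0) : ∀ l, Hf V l) = jj V (DFinsupp.single l ⟨v, hv⟩, 0) := by
      funext q
      by_cases hq : q = l
      · subst hq
        rw [Pi.single_eq_same]
        refine Prod.ext ?_ (map_zero (redl V q)).symm
        show (⟨v, hv⟩ : ↥(tor V q)) =
          (DFinsupp.single q (⟨v, hv⟩ : ↥(tor V q)) : Π₀ l, ↥(tor V l)) q
        rw [DFinsupp.single_eq_same]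
      · rw [Pi.single_eq_of_ne hq]
        refine Prod.ext ?_ (map_zero (redl V q)).symm
        show (0 : ↥(tor V q)) = (DFinsupp.single l (⟨v, hv⟩ : ↥(tor V l)) : Π₀ l, ↥(tor V l)) q
        rw [DFinsupp.single_eq_of_ne hq]
    rw [h1, hπ', gg, AddMonoidHom.coprod_apply, map_zero, add_zero]
    simp
  · exact ⟨f _ v, hf _ (by exact_mod_cast l.2.ne_zero) v⟩

end Pool.Agent.H919.EX
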