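import Mathlib
import Pool.Agent.H919.EX.Gen

/-!
# MP_51b9a2_al: Ext(Q, Ext(A,B)) = 0, in terms of sequences
-/

set_option autoImplicit false

namespace Pool.Agent.H919.EX

/-- The telescope of a group along the multiplications by `1, 2, 3, …`. -/
noncomputable def tele (A : Type) [AddCommGroup A] : (ℕ →₀ A) →+ (ℕ →₀ A) :=
  Finsupp.liftAddHom fun n => Finsupp.singleAddHom n -
    (Finsupp.singleAddHom (n + 1)).comp (zsmulAddGroupHom ((n : ℤ) + 1))

theorem tele_single (A : Type) [AddCommGroup A] (n : ℕ) (a : A) :
    tele A (Finsupp.single n a) = Finsupp.single n a - Finsupp.single (n + 1) (((n : ℤ) + 1) • a) := by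
  rw [tele, Finsupp.liftAddHom_apply_single]
  rfl

theorem tele_zero_apply (A : Type) [AddCommGroup A] (x : ℕ →₀ A) : tele A x 0 = x 0 := by
  have h : (Finsupp.applyAddHom 0).comp (tele A) = Finsupp.applyAddHom 0 := by
    refine Finsupp.addHom_ext fun n a => ?_
    show tele A (Finsupp.single n a) 0 = Finsupp.single n a 0
    rw [tele_single, Finsupp.sub_apply, Finsupp.single_eq_of_ne (a := n + 1) (by omega), sub_zero]
  exact DFunLike.congr_fun h x

theorem tele_succ_apply (A : Type) [AddCommGroup A] (x : ℕ →₀ A) (m : ℕ) :
    tele A x (m + 1) = x (m + 1) - ((m : ℤ) + 1) • x m := by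
  have h : (Finsupp.applyAddHom (m + 1)).comp (tele A) = Finsupp.applyAddHom (m + 1) -
      (zsmulAddGroupHom ((m : ℤ) + 1)).comp (Finsupp.applyAddHom m) := by
    refine Finsupp.addHom_ext fun n a => ?_
    show tele A (Finsupp.single n a) (m + 1) = Finsupp.single n a (m + 1) -
      ((m : ℤ) + 1) • Finsupp.single n a m
    rw [tele_single, Finsupp.sub_apply]
    congr 1
    by_cases hn : n = m
    · subst hn
      rw [Finsupp.single_eq_same, Finsupp.single_eq_same]
    · rw [Finsupp.single_eq_of_ne (by omega), Finsupp.single_eq_of_ne (by omega), smul_zero]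
  exact DFunLike.congr_fun h x

theorem tele_inj (A : Type) [AddCommGroup A] : Function.Injective (tele A) := by
  rw [injective_iff_map_eq_zero]
  intro x hx
  refine Finsupp.ext fun n => ?_
  induction n with
  | zero =>
    have h := tele_zero_apply A x
    rw [hx] at h
    exact h.symm
  | succ m ih =>
    have h := tele_succ_apply A x m
    rw [hx, ih] at h
    simpa using h.symm

/-- A solution of the telescope equations with values in the homomorphisms to a divisible group. -/
theorem tele_solve (A J : Type) [AddCommGroup A] [AddCommGroup J] [DivisibleBy J ℤ]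
    (a : ℕ → (A →+ J)) : ∃ h : ℕ → (A →+ J), ∀ n : ℕ, ((n : ℤ) + 1) • h (n + 1) - h n = a n := by
  obtain ⟨H, hH⟩ := (Module.Baer.of_divisible J).extension_property_addMonoidHom (tele A) (tele_inj A)
    (Finsupp.liftAddHom fun n => -(a n))
  refine ⟨fun n => H.comp (Finsupp.singleAddHom n), fun n => AddMonoidHom.ext fun x => ?_⟩
  have h1 := DFunLike.congr_fun hH (Finsupp.single n x)
  have h2 : H (tele A (Finsupp.single n x)) = -(a n x) := by
    have h3 : (Finsupp.liftAddHom fun n => -(a n)) (Finsupp.single n x) = -(a n x) := by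
      rw [Finsupp.liftAddHom_apply_single]
      rfl
    rw [← h3]
    exact h1
  rw [tele_single, map_sub] at h2
  show ((n : ℤ) + 1) • H (Finsupp.single (n + 1) x) - H (Finsupp.single n x) = a n x
  rw [← Finsupp.smul_single, map_zsmul] at h2
  rw [← neg_inj, ← h2, neg_sub]

/-- An embedding into a divisible group. -/
theorem exists_embedding (B : Type) [AddCommGroup B] : ∃ (I : Type) (_ : AddCommGroup I)
    (_ : DivisibleBy I ℤ) (j : B →+ I), Function.Injective j := by
  refine ⟨CharacterModule B → AddCircle (1 : ℚ), inferInstance, inferInstance,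
    { toFun := fun b χ => χ b
      map_zero' := by funext χ; exact map_zero χ
      map_add' := fun x y => by funext χ; exact map_add χ x y }, ?_⟩
  rw [injective_iff_map_eq_zero]
  intro b hb
  exact CharacterModule.eq_zero_of_character_apply fun χ => congrFun hb χ

end Pool.Agent.H919.EX
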