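import Mathlib
import Pool.Agent.H919.EX.Tel

/-!
# MP_51b9a2_al: Ext groups are cotorsion, reduced Ext groups are closed under sums
-/

set_option autoImplicit false

namespace Pool.Agent.H919.EX

/-- The telescope equations are solvable in an Ext group. -/
theorem solve_of_isExt {G : Type} [AddCommGroup G] (hG : IsExt G) (g : ℕ → G) :
    ∃ d : ℕ → G, ∀ n : ℕ, ((n : ℤ) + 1) • d (n + 1) - d n = g n := by
  obtain ⟨ι, B, _, R, ⟨e⟩⟩ := hG
  obtain ⟨I, _, _, j, hj⟩ := exists_embedding B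
  -- representatives
  have h1 : ∀ n, ∃ φ : ↥R →+ B, QuotientAddGroup.mk' _ φ = e (g n) := fun n =>
    QuotientAddGroup.mk'_surjective _ (e (g n))
  choose φ hφ using h1
  -- extend to the free group
  have h2 : ∀ n, ∃ Φ : (ι →₀ ℤ) →+ I, Φ.comp R.subtype = j.comp (φ n) := fun n =>
    (Module.Baer.of_divisible I).extension_property_addMonoidHom R.subtype
      Subtype.val_injective (j.comp (φ n))
  choose Φ hΦ using h2
  let q : I →+ I ⧸ j.range := QuotientAddGroup.mk' j.range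
  have hq : ∀ x, q x = 0 ↔ ∃ b, j b = x := fun x => QuotientAddGroup.eq_zero_iff x
  let _ : DivisibleBy I ℕ := AddGroup.divisibleByNatOfDivisibleByInt I
  let _ : DivisibleBy (I ⧸ j.range) ℕ := QuotientAddGroup.divisibleBy j.range
  let _ : DivisibleBy (I ⧸ j.range) ℤ := AddGroup.divisibleByIntOfDivisibleByNat _
  -- the homomorphisms on the quotient
  have h3 : ∀ n, ∃ a : ((ι →₀ ℤ) ⧸ R) →+ (I ⧸ j.range), ∀ x, a (QuotientAddGroup.mk' R x) = q (Φ n x) := by
    intro n
    refine ⟨QuotientAddGroup.lift R (q.comp (Φ n)) fun x hx => ?_, fun x => rfl⟩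
    show q (Φ n x) = 0
    rw [hq]
    exact ⟨φ n ⟨x, hx⟩, (DFunLike.congr_fun (hΦ n) ⟨x, hx⟩).symm⟩
  choose a ha using h3
  obtain ⟨h, hh⟩ := tele_solve _ _ a
  -- lift to `I`
  have h4 : ∀ n, ∃ Ψ : (ι →₀ ℤ) →+ I, ∀ x, q (Ψ x) = h n (QuotientAddGroup.mk' R x) := by
    intro n
    have h5 : ∀ i : ι, ∃ y : I, q y = h n (QuotientAddGroup.mk' R (Finsupp.single i 1)) := fun i =>
      QuotientAddGroup.mk'_surjective _ _
    choose y hy using h5
    refine ⟨Finsupp.liftAddHom fun i => zmultiplesHom I (y i), fun x => ?_⟩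
    have h6 : q.comp (Finsupp.liftAddHom fun i => zmultiplesHom I (y i)) =
        (h n).comp (QuotientAddGroup.mk' R) := by
      refine Finsupp.addHom_ext fun i m => ?_
      show q ((Finsupp.liftAddHom fun i => zmultiplesHom I (y i)) (Finsupp.single i m)) =
        h n (QuotientAddGroup.mk' R (Finsupp.single i m))
      have h7 : Finsupp.single i m = m • (Finsupp.single i 1 : ι →₀ ℤ) := by simp
      rw [Finsupp.liftAddHom_apply_single, zmultiplesHom_apply, map_zsmul, hy, h7, map_zsmul,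
        map_zsmul]
    exact DFunLike.congr_fun h6 x
  choose Ψ hΨ using h4
  -- restrict to `R`
  have h8 : ∀ n, ∃ ψ : ↥R →+ B, ∀ r : ↥R, j (ψ r) = Ψ n r.1 := by
    intro n
    have h9 : ∀ r : ↥R, ∃ b, j b = Ψ n r.1 := fun r => by
      rw [← hq, hΨ]
      have : QuotientAddGroup.mk' R r.1 = 0 := (QuotientAddGroup.eq_zero_iff _).2 r.2
      rw [this, map_zero]
    choose ψ hψ using h9
    exact ⟨{ toFun := ψ
             map_zero' := hj (by rw [hψ, map_zero]; exact map_zero _)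
             map_add' := fun x y => hj (by rw [map_add, hψ, hψ, hψ]; exact map_add _ _ _) }, hψ⟩
  choose ψ hψ using h8
  have h10 : ∀ n : ℕ, ∃ θ : (ι →₀ ℤ) →+ B,
      ∀ x, j (θ x) = ((n : ℤ) + 1) • Ψ (n + 1) x - Ψ n x - Φ n x := by
    intro n
    have h11 : ∀ x, ∃ b, j b = ((n : ℤ) + 1) • Ψ (n + 1) x - Ψ n x - Φ n x := fun x => by
      rw [← hq, map_sub, map_sub, map_zsmul, hΨ, hΨ, ← ha, ← hh n]
      simp
    choose θ hθ using h11
    exact ⟨{ toFun := θ
             map_zero' := hj (by rw [hθ]; simp)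
             map_add' := fun x y => hj (by
               rw [map_add, hθ, hθ, hθ, map_add, map_add, map_add, smul_add]; abel) }, hθ⟩
  choose θ hθ using h10
  refine ⟨fun n => e.symm (QuotientAddGroup.mk' _ (ψ n)), fun n => ?_⟩
  apply e.injective
  rw [map_sub, map_zsmul, e.apply_symm_apply, e.apply_symm_apply, ← hφ n, ← map_zsmul, ← map_sub]
  rw [← sub_eq_zero, ← map_sub]
  refine (QuotientAddGroup.eq_zero_iff _).2 ⟨θ n, ?_⟩
  refine AddMonoidHom.ext fun r => hj ?_
  show j (θ n r.1) = j (((n : ℤ) + 1) • ψ (n + 1) r - ψ n r - φ n r)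
  rw [hθ, map_sub, map_sub, map_zsmul, hψ, hψ]
  congr 1
  exact (DFunLike.congr_fun (hΦ n) r)

end Pool.Agent.H919.EX
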