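import Mathlib
import Pool.Agent.H919.EX.Red

/-!
# MP_51b9a2_al: a reduced cotorsion group `G` is `Ext(Q/Z, G)`
-/

set_option autoImplicit false

namespace Pool.Agent.H919.EX

/-- The relations of `Q/Z`: `e₀` and `(n+1) e_(n+1) - e_n`. -/
noncomputable def qrel : ℕ → (ℕ →₀ ℤ)
  | 0 => Finsupp.single 0 1
  | n + 1 => ((n : ℤ) + 1) • Finsupp.single (n + 1) 1 - Finsupp.single n 1

/-- The homomorphism which sends a generator to the relation. -/
noncomputable def qrelHom : (ℕ →₀ ℤ) →+ (ℕ →₀ ℤ) :=
  Finsupp.liftAddHom fun n => (zmultiplesHom _ (qrel n))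

theorem qrelHom_single (n : ℕ) (m : ℤ) : qrelHom (Finsupp.single n m) = m • qrel n := by
  rw [qrelHom, Finsupp.liftAddHom_apply_single, zmultiplesHom_apply]

theorem qrelHom_zero_apply (x : ℕ →₀ ℤ) : qrelHom x 0 = x 0 - x 1 := by
  have h : (Finsupp.applyAddHom 0).comp qrelHom =
      Finsupp.applyAddHom 0 - Finsupp.applyAddHom 1 := by
    refine Finsupp.addHom_ext fun n m => ?_
    show qrelHom (Finsupp.single n m) 0 = Finsupp.single n m 0 - Finsupp.single n m 1
    rw [qrelHom_single]
    rcases n with _ | _ | n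
    · simp [qrel]
    · simp [qrel]
    · simp [qrel]
  exact DFunLike.congr_fun h x

theorem qrelHom_succ_apply (x : ℕ →₀ ℤ) (k : ℕ) :
    qrelHom x (k + 1) = ((k : ℤ) + 1) * x (k + 1) - x (k + 2) := by
  have h : (Finsupp.applyAddHom (k + 1)).comp qrelHom =
      (zsmulAddGroupHom ((k : ℤ) + 1)).comp (Finsupp.applyAddHom (k + 1)) -
        Finsupp.applyAddHom (k + 2) := by
    refine Finsupp.addHom_ext fun n m => ?_
    show qrelHom (Finsupp.single n m) (k + 1) =
      ((k : ℤ) + 1) • Finsupp.single n m (k + 1) - Finsupp.single n m (k + 2)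
    rw [qrelHom_single]
    rcases n with _ | n
    · simp [qrel]
    · by_cases h1 : n = k
      · subst h1
        simp [qrel, mul_comm]
      · by_cases h2 : n = k + 1
        · subst h2
          simp [qrel]
        · have h3 : n + 1 ≠ k + 1 := by omega
          have h4 : n ≠ k + 1 := h2
          have h5 : n + 1 ≠ k + 2 := by omega
          simp [qrel, Finsupp.single_apply, h1, h2]
  exact DFunLike.congr_fun h x

theorem qrelHom_inj : Function.Injective qrelHom := by
  rw [injective_iff_map_eq_zero]
  intro x hx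
  have h0 : x 0 = x 1 := by
    have h := qrelHom_zero_apply x
    rw [hx] at h
    have h' : (0 : ℤ) = x 0 - x 1 := h
    omega
  have hs : ∀ k : ℕ, x (k + 2) = ((k : ℤ) + 1) * x (k + 1) := fun k => by
    have h := qrelHom_succ_apply x k
    rw [hx] at h
    have h' : (0 : ℤ) = ((k : ℤ) + 1) * x (k + 1) - x (k + 2) := h
    linarith
  have hstep : ∀ n, x (n + 1) = 0 → x n = 0 := by
    intro n hn
    rcases n with _ | k
    · rw [h0, hn]
    · have h := hs k
      rw [hn] at h
      rcases mul_eq_zero.1 h.symm with h' | h'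
      · omega
      · exact h'
  have hdown : ∀ k n, x (n + k) = 0 → x n = 0 := by
    intro k
    induction k with
    | zero => exact fun n hn => hn
    | succ k ih => exact fun n hn => ih n (hstep _ hn)
  refine Finsupp.ext fun n => ?_
  refine hdown (x.support.sup id + 1) n ?_
  rw [← Finsupp.notMem_support_iff]
  intro hmem
  have := Finset.le_sup (f := id) hmem
  simp only [id] at this
  omega

theorem qrel_mem (n : ℕ) : qrel n ∈ qrelHom.range :=
  ⟨Finsupp.single n 1, by rw [qrelHom_single, one_smul]⟩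

/-- The relation as an element of the group of relations. -/
noncomputable def qr (n : ℕ) : ↥(qrelHom.range) := ⟨qrel n, qrel_mem n⟩

theorem hom_ext_qrange {B : Type} [AddCommGroup B] {f g : ↥(qrelHom.range) →+ B}
    (h : ∀ n, f (qr n) = g (qr n)) : f = g := by
  have h1 : f.comp qrelHom.rangeRestrict = g.comp qrelHom.rangeRestrict := by
    refine Finsupp.addHom_ext fun l n => ?_
    have h2 : qrelHom.rangeRestrict (Finsupp.single l n) = n • qr l := by
      apply Subtype.ext
      show qrelHom (Finsupp.single l n) = n • qrel l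
      exact qrelHom_single l n
    rw [AddMonoidHom.comp_apply, AddMonoidHom.comp_apply, h2, map_zsmul, map_zsmul, h l]
  exact (AddMonoidHom.cancel_right qrelHom.rangeRestrict_surjective).1 h1

theorem exists_hom {B : Type} [AddCommGroup B] (b : ℕ → B) :
    ∃ f : ↥(qrelHom.range) →+ B, ∀ n, f (qr n) = b n := by
  let e := AddMonoidHom.ofInjective qrelHom_inj
  refine ⟨(Finsupp.liftAddHom fun n => zmultiplesHom B (b n)).comp e.symm.toAddMonoidHom,
    fun n => ?_⟩
  have h1 : e (Finsupp.single n 1) = qr n := by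
    apply Subtype.ext
    show qrelHom (Finsupp.single n 1) = qrel n
    rw [qrelHom_single, one_smul]
  show (Finsupp.liftAddHom fun n => zmultiplesHom B (b n)) (e.symm (qr n)) = b n
  rw [← h1, e.symm_apply_apply, Finsupp.liftAddHom_apply_single, zmultiplesHom_apply, one_smul]

theorem exists_free {B : Type} [AddCommGroup B] (b : ℕ → B) :
    ∃ f : (ℕ →₀ ℤ) →+ B, ∀ n m, f (Finsupp.single n m) = m • b n :=
  ⟨Finsupp.liftAddHom fun n => zmultiplesHom B (b n), fun n m => by
    rw [Finsupp.liftAddHom_apply_single, zmultiplesHom_apply]⟩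

theorem isExt_of_solve {G : Type} [AddCommGroup G]
    (hs : ∀ g : ℕ → G, ∃ d : ℕ → G, ∀ n : ℕ, ((n : ℤ) + 1) • d (n + 1) - d n = g n)
    (hr : ∀ d : ℕ → G, (∀ n : ℕ, ((n : ℤ) + 1) • d (n + 1) = d n) → d 0 = 0) : IsExt G := by
  choose sol hsol using hs
  have huniq : ∀ (g : ℕ → G) (d : ℕ → G), (∀ n : ℕ, ((n : ℤ) + 1) • d (n + 1) - d n = g n) →
      sol g 0 = d 0 := by
    intro g d hd
    have h := hr (fun n => sol g n - d n) fun n => by
      have h1 := hsol g n
      have h2 := hd n
      rw [smul_sub]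
      rw [← h2] at h1
      rw [sub_eq_sub_iff_sub_eq_sub] at h1
      exact h1
    exact sub_eq_zero.1 h
  let Θ : (↥(qrelHom.range) →+ G) →+ G :=
    { toFun := fun φ => φ (qr 0) - sol (fun n => φ (qr (n + 1))) 0
      map_zero' := by
        rw [huniq _ (fun _ => 0) (fun n => by simp)]
        simp
      map_add' := fun φ ψ => by
        rw [huniq (fun n => (φ + ψ) (qr (n + 1)))
          (fun n => sol (fun n => φ (qr (n + 1))) n + sol (fun n => ψ (qr (n + 1))) n)
          (fun n => by
            have h1 := hsol (fun n => φ (qr (n + 1))) n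
            have h2 := hsol (fun n => ψ (qr (n + 1))) n
            rw [AddMonoidHom.add_apply, ← h1, ← h2, smul_add]
            abel)]
        rw [AddMonoidHom.add_apply]
        abel }
  have hΘ : ∀ φ, Θ φ = φ (qr 0) - sol (fun n => φ (qr (n + 1))) 0 := fun _ => rfl
  have hker : Θ.ker = (AddMonoidHom.compHom' (P := G) (qrelHom.range).subtype).range := by
    ext φ
    constructor
    · intro hφ
      have h1 : φ (qr 0) = sol (fun n => φ (qr (n + 1))) 0 := sub_eq_zero.1 hφ
      obtain ⟨f, hf⟩ := exists_free (sol (fun n => φ (qr (n + 1))))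
      refine ⟨f, hom_ext_qrange fun n => ?_⟩
      show f (qrel n) = φ (qr n)
      rcases n with _ | n
      · rw [qrel, hf, one_smul, h1]
      · rw [qrel, map_sub, map_zsmul, hf, hf, one_smul, one_smul]
        exact hsol (fun n => φ (qr (n + 1))) n
    · rintro ⟨Φ, rfl⟩
      rw [AddMonoidHom.mem_ker, hΘ, sub_eq_zero]
      have h1 := huniq
        (fun n => (AddMonoidHom.compHom' (P := G) (qrelHom.range).subtype Φ) (qr (n + 1)))
        (fun n => Φ (Finsupp.single n 1)) (fun n => by
          show _ = Φ (qrel (n + 1))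
          rw [qrel, map_sub, map_zsmul])
      rw [h1]
      rfl
  have hsurj : Function.Surjective Θ := by
    intro g
    obtain ⟨φ, hφ⟩ := exists_hom (B := G) (fun n => if n = 0 then g else 0)
    refine ⟨φ, ?_⟩
    rw [hΘ, huniq _ (fun _ => 0) (fun n => by
      show _ = φ (qr (n + 1))
      rw [hφ]
      simp), hφ]
    simp
  refine ⟨ℕ, G, inferInstance, qrelHom.range, ⟨?_⟩⟩
  exact ((QuotientAddGroup.quotientKerEquivOfSurjective _ hsurj).symm).trans
    (QuotientAddGroup.quotientAddEquivOfEq hker)

end Pool.Agent.H919.EX
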