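import Mathlib
import Pool.Agent.H919.EX.Div
import Pool.Agent.H919.EX.Rat

/-!
# MP_51b9a2_al: divisible pairs and reduced pairs
-/

set_option autoImplicit false

namespace Pool.Agent.H919.EX

/-- Divisible groups. -/
def IsDivisible (G : Type) [AddCommGroup G] : Prop :=
  ∀ n : ℤ, n ≠ 0 → ∀ x : G, ∃ y : G, n • y = x

/-- Reduced groups: the only divisible subgroup is zero. -/
def IsReducedGroup (G : Type) [AddCommGroup G] : Prop :=
  ∀ D : AddSubgroup G, (∀ n : ℤ, n ≠ 0 → ∀ x ∈ D, ∃ y ∈ D, n • y = x) → D = ⊥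

theorem tower_le {G : Type} [AddCommGroup G] (d : ℕ → G)
    (hd : ∀ n : ℕ, ((n : ℤ) + 1) • d (n + 1) = d n) (N m : ℕ) :
    ∃ k : ℤ, d N = k • d (N + m) := by
  induction m with
  | zero => exact ⟨1, by simp⟩
  | succ m ih =>
    obtain ⟨k, hk⟩ := ih
    refine ⟨k * (((N + m : ℕ) : ℤ) + 1), ?_⟩
    rw [mul_smul, ← add_assoc, hd, ← hk]

theorem tower_div {G : Type} [AddCommGroup G] (d : ℕ → G)
    (hd : ∀ n : ℕ, ((n : ℤ) + 1) • d (n + 1) = d n) (N : ℕ) (n : ℤ) (hn : n ≠ 0) :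
    ∃ (M : ℕ) (k : ℤ), d N = n • k • d M := by
  -- choose `M = N + r + 1` with `M` a multiple of `n`
  obtain ⟨k1, h1⟩ := tower_le d hd N (n.natAbs * (N + 1) - 1 - N)
  have hpos : 1 ≤ n.natAbs := Int.natAbs_pos.2 hn
  have hle : N + 1 ≤ n.natAbs * (N + 1) := Nat.le_mul_of_pos_left _ hpos
  have h2 : N + (n.natAbs * (N + 1) - 1 - N) = n.natAbs * (N + 1) - 1 := by omega
  rw [h2] at h1
  have h3 := hd (n.natAbs * (N + 1) - 1)
  have h4 : (((n.natAbs * (N + 1) - 1 : ℕ) : ℤ) + 1) = (n.natAbs : ℤ) * (N + 1) := by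
    have : ((n.natAbs * (N + 1) - 1 : ℕ) : ℤ) = ((n.natAbs * (N + 1) : ℕ) : ℤ) - 1 := by
      rw [Nat.cast_sub (by omega)]
      simp
    rw [this]
    push_cast
    ring
  rw [h4] at h3
  rcases Int.natAbs_eq n with h5 | h5
  · refine ⟨n.natAbs * (N + 1) - 1 + 1, (N + 1 : ℤ) * k1, ?_⟩
    rw [h1, ← h3, smul_smul, smul_smul]
    congr 1
    have h6 : (n.natAbs : ℤ) = n := h5.symm
    rw [h6]
    ring
  · refine ⟨n.natAbs * (N + 1) - 1 + 1, -((N + 1 : ℤ) * k1), ?_⟩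
    rw [h1, ← h3, smul_smul, smul_smul]
    congr 1
    have h6 : (n.natAbs : ℤ) = -n := by omega
    rw [h6]
    ring

theorem tower_zero {G : Type} [AddCommGroup G] (hG : IsReducedGroup G) (d : ℕ → G)
    (hd : ∀ n : ℕ, ((n : ℤ) + 1) • d (n + 1) = d n) : d 0 = 0 := by
  let D : AddSubgroup G :=
    { carrier := {x | ∃ (N : ℕ) (k : ℤ), x = k • d N}
      zero_mem' := ⟨0, 0, by simp⟩
      add_mem' := by
        rintro x y ⟨N, k, rfl⟩ ⟨M, l, rfl⟩
        obtain ⟨a, ha⟩ := tower_le d hd N M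
        obtain ⟨b, hb⟩ := tower_le d hd M N
        refine ⟨N + M, k * a + l * b, ?_⟩
        rw [add_smul, mul_smul, mul_smul, ← ha, add_comm N M, ← hb]
      neg_mem' := by
        rintro x ⟨N, k, rfl⟩
        exact ⟨N, -k, by rw [neg_smul]⟩ }
  have h := hG D fun n hn x hx => by
    obtain ⟨N, k, rfl⟩ := hx
    obtain ⟨M, l, hl⟩ := tower_div d hd N n hn
    refine ⟨(k * l) • d M, ⟨M, k * l, rfl⟩, ?_⟩
    rw [hl, smul_smul, smul_smul, smul_smul]
    congr 1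
    ring
  have h0 : d 0 ∈ D := ⟨0, 1, by simp⟩
  rw [h] at h0
  exact (AddSubgroup.mem_bot).1 h0

theorem isExt_of_red {G : Type} [AddCommGroup G] (hG : IsReducedGroup G)
    (hs : ∀ g : ℕ → G, ∃ d : ℕ → G, ∀ n : ℕ, ((n : ℤ) + 1) • d (n + 1) - d n = g n) : IsExt G :=
  isExt_of_solve hs fun d hd => tower_zero hG d hd

theorem div_prod {G₁ G₂ : Type} [AddCommGroup G₁] [AddCommGroup G₂] (h₁ : IsDivisible G₁) (h₂ : IsDivisible G₂) :
    IsDivisible (G₁ × G₂) := by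
  rintro n hn ⟨x, y⟩
  obtain ⟨a, ha⟩ := h₁ n hn x
  obtain ⟨b, hb⟩ := h₂ n hn y
  exact ⟨(a, b), Prod.ext ha hb⟩

theorem sum_div {G₁ G₂ : Type} [AddCommGroup G₁] [AddCommGroup G₂] (h₁ : IsDivisible G₁) (h₂ : IsDivisible G₂) :
    IsExt (G₁ × G₂) := isExt_of_divisible _ (div_prod h₁ h₂)

theorem sum_red {G₁ G₂ : Type} [AddCommGroup G₁] [AddCommGroup G₂] (e₁ : IsExt G₁) (e₂ : IsExt G₂)
    (h₁ : IsReducedGroup G₁) (h₂ : IsReducedGroup G₂) : IsExt (G₁ × G₂) := by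
  refine isExt_of_solve (fun g => ?_) fun d hd => ?_
  · obtain ⟨a, ha⟩ := solve_of_isExt e₁ fun n => (g n).1
    obtain ⟨b, hb⟩ := solve_of_isExt e₂ fun n => (g n).2
    exact ⟨fun n => (a n, b n), fun n => Prod.ext (ha n) (hb n)⟩
  · exact Prod.ext (tower_zero h₁ (fun n => (d n).1) fun n => congrArg Prod.fst (hd n))
      (tower_zero h₂ (fun n => (d n).2) fun n => congrArg Prod.snd (hd n))

theorem red_part {V R : Type} [AddCommGroup V] [AddCommGroup R] (hR : IsReducedGroup R)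
    (e : IsExt (V × R)) : IsExt R := by
  refine isExt_of_red hR fun g => ?_
  obtain ⟨a, ha⟩ := solve_of_isExt e fun n => ((0 : V), g n)
  exact ⟨fun n => (a n).2, fun n => congrArg Prod.snd (ha n)⟩

end Pool.Agent.H919.EX
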